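import Pool.Agent.H24.Bfr3

namespace Pool.Agent.Results.MP_56eb46_lc.Minimal

open Pool.Agent.H24.Bfr

/-- `M` lies in the rational cone `T(L)`: `M = g(h⁻¹(L) ∩ R)` for morphisms `h`, `g` from the free
monoid on a finite alphabet `C` and a regular `R` over `C` (Nivat form). -/
def InCone {X Y : Type} (L : Language X) (M : Language Y) : Prop :=
  ∃ (C : Type) (_ : Finite C) (h : C → List X) (g : C → List Y) (R : Language C),
    R.IsRegular ∧ ∀ y, y ∈ M ↔ ∃ z, z ∈ R ∧ z.flatMap h ∈ L ∧ z.flatMap g = y

/-- The words `a_1^{n_1} ... a_k^{n_k}` with `n_j ≠ n_{j+1}` for some `j`. -/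
def Sne (k : ℕ) : Language (Fin k) :=
  {x | ∃ n : Fin k → ℕ, x = (List.ofFn fun i => List.replicate (n i) i).flatten ∧
    ∃ (j : ℕ) (h : j + 1 < k), n ⟨j, Nat.lt_of_succ_lt h⟩ ≠ n ⟨j + 1, h⟩}

theorem mem_sne {k : ℕ} (x : List (Fin k)) : x ∈ Sne k ↔ ∃ n, x = wd n ∧ ¬ Diag n := by
  refine exists_congr fun n => and_congr ?_ ?_
  · rw [List.ofFn_eq_map, wd, List.flatMap_def]
  · constructor
    · rintro ⟨j, h, e⟩ hD
      exact e (hD _ _)
    · intro hD
      by_contra hn
      push Not at hn
      have : ∀ j (h : j < k), n ⟨j, h⟩ = n ⟨0, by omega⟩ := by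
        intro j
        induction j with
        | zero => intro h; rfl
        | succ j ih => intro h; rw [← hn j h, ih]
      exact hD fun a b => (this a.1 a.2).trans (this b.1 b.2).symm

theorem flat_wd {k : ℕ} (e : Fin k × Bool → ℕ) (z : List (Fin k × Bool))
    (hz : (z.map Prod.fst).Pairwise (· ≤ ·)) :
    (z.flatMap fun c => List.replicate (e c) c.1) =
      wd fun i => z.count (i, false) * e (i, false) + z.count (i, true) * e (i, true) := by
  have h1 : (z.flatMap fun c => List.replicate (e c) c.1).Pairwise (· ≤ ·) := by
    rw [List.pairwise_flatMap]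
    refine ⟨fun a _ => by simp [List.pairwise_replicate], ?_⟩
    rw [List.pairwise_map] at hz
    refine hz.imp fun {a b} h x hx y hy => ?_
    rw [List.eq_of_mem_replicate hx, List.eq_of_mem_replicate hy]
    exact h
  rw [eq_wd h1]
  congr 1
  ext i
  clear h1 hz
  induction z with
  | nil => simp
  | cons c z ih =>
    obtain ⟨j, b⟩ := c
    rw [List.flatMap_cons, List.count_append, ih]
    by_cases h : j = i
    · subst h
      cases b <;> simp [List.count_cons] <;> ring
    · simp [List.count_cons, List.count_replicate, h]

theorem result (k : ℕ) (hk : 2 ≤ k) (Y : Type) [Finite Y] (L : Language Y) (w : Fin k → List Y)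
    (hb : ∀ y ∈ L, ∃ m : Fin k → ℕ,
      y = (List.ofFn fun i => (List.replicate (m i) (w i)).flatten).flatten)
    (hT : InCone (Sne k) L) :
    L.IsRegular ∨ ∀ (Z : Type) [Finite Z] (M : Language Z), InCone L M ↔ InCone (Sne k) M := by
  have hk0 : 0 < k := by omega
  have hT' : InT (Sne k) L := hT
  obtain ⟨τ, hτ⟩ := hT'.fr
  obtain ⟨g, hg⟩ := exists_morph w
  obtain ⟨t0, P, H⟩ := pump_fr hk0 (τ.comp g.swap)
  have hA : ∀ m, InA (fun n m => (τ.comp g.swap).rel (wd n) (wd m)) m ↔ (wd m).flatMap w ∈ L := by
    intro m
    simp only [hτ, InA, FR.comp_rel, FR.swap_rel, hg, mem_sne]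
    constructor
    · rintro ⟨n, ⟨y, h1, rfl⟩, h2⟩
      exact ⟨_, ⟨n, rfl, h2⟩, h1⟩
    · rintro ⟨_, ⟨n, rfl, h2⟩, h1⟩
      exact ⟨n, ⟨_, h1, rfl⟩, h2⟩
  rcases per_or_ray hk0 H with ⟨y, v, h⟩ | ⟨T, h⟩
  · right
    simp only [hA] at h
    have hL : InT L (Sne k) := by
      refine ⟨Fin k × Bool, inferInstance,
        fun c => (List.replicate (if c.2 then v c.1 else y c.1) c.1).flatMap w,
        fun c => List.replicate (if c.2 then 1 else 0) c.1, _,
        (sorted_reg Prod.fst).inf (count_reg (fun m => ∀ i, m (i, false) = 1) 2 1 one_pos ?_),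
        fun x => ?_⟩
      · rintro m ⟨j, b⟩ hm
        cases b
        · refine iff_of_false (fun h => ?_) (fun h => ?_)
          · have := h j; omega
          · have := h j
            simp at this
            omega
        · simp
      · have key : ∀ z : List (Fin k × Bool), (z.map Prod.fst).Pairwise (· ≤ ·) →
            (∀ i, z.count (i, false) = 1) →
            ((z.flatMap fun c => (List.replicate (if c.2 then v c.1 else y c.1) c.1).flatMap w) ∈ L ↔
              ¬ Diag fun i => z.count (i, true)) ∧
            (z.flatMap fun c => List.replicate (if c.2 then 1 else 0) c.1) =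
              wd fun i => z.count (i, true) := by
          intro z h1 h2
          constructor
          · rw [← List.flatMap_assoc, flat_wd (fun c => if c.2 then v c.1 else y c.1) z h1, ← h]
            simp [h2]
          · rw [flat_wd (fun c => if c.2 then 1 else 0) z h1]
            simp
        rw [mem_sne]
        constructor
        · rintro ⟨n, rfl, hn⟩
          let z : List (Fin k × Bool) :=
            (List.finRange k).flatMap fun i => (i, false) :: List.replicate (n i) (i, true)
          have h1 : (z.map Prod.fst).Pairwise (· ≤ ·) := by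
            have : z.map Prod.fst = wd fun i => n i + 1 := by
              simp [z, wd, List.map_flatMap, List.replicate_succ]
            rw [this]
            exact sorted_wd _
          have h2 : ∀ i, z.count (i, false) = 1 := by
            intro i
            simp only [z]
            rw [List.count_flatMap, ← Fin.sum_univ_def]
            simp [List.count_cons, List.count_replicate]
          have h3 : (fun i => z.count (i, true)) = n := by
            ext i
            simp only [z]
            rw [List.count_flatMap, ← Fin.sum_univ_def]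
            simp [List.count_cons, List.count_replicate]
          obtain ⟨p1, p2⟩ := key z h1 h2
          rw [h3] at p1 p2
          exact ⟨z, ⟨h1, h2⟩, p1.2 hn, p2⟩
        · rintro ⟨z, ⟨h1, h2⟩, h3, rfl⟩
          obtain ⟨p1, p2⟩ := key z h1 h2
          exact ⟨_, p2, p1.1 h3⟩
    intro Z _ M
    exact ⟨fun h1 => hT'.trans h1, fun h1 => hL.trans h1⟩
  · left
    have hR := image_reg ((sorted_reg (id : Fin k → Fin k)).inf (count_reg _ T P H.pos h)) w
    convert hR using 1
    ext y
    constructor
    · intro hy
      obtain ⟨m, hm⟩ := hb y hy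
      have e : (wd m).flatMap w = y := by
        rw [hm, List.ofFn_eq_map, wd, List.flatMap_assoc, List.flatMap_def]
        congr 2
        ext i : 1
        simp [List.flatMap_def]
      refine ⟨wd m, ⟨by simpa using sorted_wd m, ?_⟩, e⟩
      refine (hA fun a => (wd m).count a).2 ?_
      rw [show (fun a => (wd m).count a) = m from funext (count_wd m), e]
      exact hy
    · rintro ⟨x, ⟨h1, h2⟩, rfl⟩
      have h3 : x.Pairwise (· ≤ ·) := by simpa using h1
      have h4 := (hA fun a => x.count a).1 h2
      rw [← eq_wd h3] at h4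
      exact h4

end Pool.Agent.Results.MP_56eb46_lc.Minimal
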